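import Mathlib
import Pool.Agent.H26Z.VojMain

/-!
# The logarithmic error term in Vojta's inequality for curves fails uniformly in `S`

We take `k = ℚ`, `X = ℙ¹`, the ample sheaf `𝒪(1)`, `D = [0] + [1] + [∞]` and `r = 1`. The canonical
sheaf is `𝒪(-2)`. Heights and proximity function may be changed by arbitrary bounded functions.
-/

set_option autoImplicit false

open Pool.Agent.H26Z.Voj

namespace Pool.Agent.Results.MP_e44225_nt.LogErrorFails

/-- For every `C` there is a finite set of places of `ℚ` (the real place and the primes in `S`)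
such that, for all representatives `hK`, `hA`, `m` modulo bounded functions of the height for the
canonical sheaf `𝒪(-2)`, of the height for `𝒪(1)` and of the proximity function, the inequality
`hK x + m x < C log⁺ (hA x) + d x` fails at infinitely many rational points `x` of
`ℙ¹ \ {0, 1, ∞}`; for these points `d x = log |Disc ℚ|`. -/
theorem result (C : ℝ) : ∃ S : Finset ℕ, (∀ p ∈ S, p.Prime) ∧
    ∀ (hK hA m : ℚ → ℝ) (B : ℝ),
      (∀ x, |hK x - (-2) * Height.logHeight₁ x| ≤ B) →
      (∀ x, |hA x - Height.logHeight₁ x| ≤ B) →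
      (∀ x, x ≠ 0 → x ≠ 1 → |m x - proximity S x| ≤ B) →
      {x : ℚ | x ≠ 0 ∧ x ≠ 1 ∧
        C * Real.posLog (hA x) + Real.log |(NumberField.discr ℚ : ℝ)| ≤ hK x + m x}.Infinite :=
  main C

end Pool.Agent.Results.MP_e44225_nt.LogErrorFails
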